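import Pool.Agent.Run7.h115.QG.Fin

/-!
# The hot-spot set of a metric graph with delta conditions is finite or uncountable (Q2)

Let `M` be countable. The eigenspace `W` of the second eigenvalue is the union of the closed convex
cones `C_P = {f : f(P) = max f}`, `P` in `M`; by Baire's theorem it is the union of those which have
inner points. If `P` is an inner point of an edge and `C_P` has inner points, then the derivatives
of all second eigenfunctions vanish at `P`; as `M` is countable, this happens only for finitely many
points. So all maxima are attained in a finite set `A`. Let `J(f)` be the set of the points of `A`
where `f` has its maximum. If `f` has its maximum at `y` and `J(f) = J(g)`, then `g` has its maximum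
at `y` (compare `f` with `f - ε g`). So `M` is the union of finitely many sets of the form
`{y : g(y) = max g}`, and these are finite.
-/

set_option autoImplicit false

namespace Pool.Agent.Results.MP_1debac_an.FiniteOrUncountable

open Pool.Agent.R228.QG

/-- For every compact metric graph and all strengths of the delta conditions at its vertices the
hot-spot set is finite or uncountable. -/
theorem result {V E : Type} [Fintype V] [Fintype E] [DecidableEq V] (Γ : MGraph V E)
    (α : V → ℝ) : (hotSet Γ α).Finite ∨ ¬ (hotSet Γ α).Countable :=
  Run7.h115.QG.hotSet_finite_or_uncountable Γ α

end Pool.Agent.Results.MP_1debac_an.FiniteOrUncountable
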